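import Pool.Agent.EVF.StmtsF

/-!
# EVF, row SPC: the member at `t`
-/

set_option autoImplicit false

namespace Pool.Agent.EVF.H20

open MvPolynomial
open Pool.Agent.EVF

theorem spec_apply {k r : ℕ} (M : FMat k r) (t : Fin k → ℤ) (i j : Fin r) :
    spec M t i j = MvPolynomial.map (eval t) (M i j) := rfl

/-- SPC -/
theorem spc : SpcStmt := by
  intro k r s W M hM t
  refine ⟨?_, ?_, ?_, ?_⟩
  · intro i j
    rw [spec_apply, spec_apply, hM.symm i j]
  · intro i j e he
    rw [spec_apply] at he
    exact hM.deg i j e (MvPolynomial.support_map_subset _ _ he)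
  · intro i j e
    rw [spec_apply, MvPolynomial.coeff_map]
  · intro e
    have h : F (spec M t) = MvPolynomial.map (eval t) M.det := by
      unfold F
      rw [RingHom.map_det]
      rfl
    rw [h, MvPolynomial.coeff_map]

end Pool.Agent.EVF.H20
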